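import Pool.Agent.Helper46.FA.Mut

/-!
Take `k = 2` and the slopes `q / 1` and `p / 1`, where `q` is even and positive, `p` is
congruent to `3` or `5` modulo `8`, and `q`, `p` are coprime.  The data satisfy the three
conditions of the problem, the pretzel link with columns `q, p, -q, -p` is a mutant of the
link `L`, the pretzel link with columns `q, p, -p, -q`, and its two components do not bound
disjoint discs in the four dimensional ball.
-/

namespace Pool.Agent.Results.MP_fa8a39_gt.NonsliceMutant

open Pool.Agent.Helper46.FA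

theorem result (q p : ℕ) (hq : Even q) (hq0 : 0 < q) (hp : p % 8 = 3 ∨ p % 8 = 5)
    (hc : Nat.Coprime q p) :
    Admissible [((q : ℤ), 1), ((p : ℤ), 1)] ∧
    Mutant (symmetric [(q : ℤ), (p : ℤ)]) (pretzel [(q : ℤ), (p : ℤ), -(q : ℤ), -(p : ℤ)]) ∧
    ¬ BoundsDisjointDiscs (pretzel [(q : ℤ), (p : ℤ), -(q : ℤ), -(p : ℤ)]) := by
  have hp0 : 0 < p := by omega
  refine ⟨⟨by simp, ?_, ?_, ?_, ?_⟩, mutant_pretzel q p hq0 hp0, not_bounds q p hq hq0 hp⟩
  · intro x hx
    simp only [List.mem_cons, List.not_mem_nil, or_false] at hx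
    rcases hx with rfl | rfl
    · exact ⟨by simp; omega, by simp, isCoprime_one_right⟩
    · exact ⟨by simp; omega, by simp, isCoprime_one_right⟩
  · have h1 : Even (q : ℤ) := by exact_mod_cast hq
    have h2 : ¬ Even (p : ℤ) := by
      rw [Int.not_even_iff_odd]
      exact_mod_cast (Nat.odd_iff.2 (by omega : p % 2 = 1))
    simp [h1, h2]
  · intro x hx
    obtain ⟨m, hm⟩ := hq
    simp only [List.mem_cons, List.not_mem_nil, or_false] at hx
    rcases hx with rfl | rfl
    · have : (2 : ℚ) ≤ q := by exact_mod_cast (by omega : 2 ≤ q)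
      simpa [abs_of_nonneg (by linarith : (0 : ℚ) ≤ q)] using this
    · have : (2 : ℚ) ≤ p := by exact_mod_cast (by omega : 2 ≤ p)
      simpa [abs_of_nonneg (by linarith : (0 : ℚ) ≤ p)] using this
  · intro x hx y hy
    simp only [List.mem_cons, List.not_mem_nil, or_false] at hx hy
    rcases hx with rfl | rfl <;> rcases hy with rfl | rfl
    · right; left; rfl
    · left
      have : Int.gcd (q : ℤ) (p : ℤ) = Nat.gcd q p := rfl
      rw [this]; exact hc
    · left
      have : Int.gcd (p : ℤ) (q : ℤ) = Nat.gcd p q := rfl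
      rw [this]; exact hc.symm
    · right; left; rfl

end Pool.Agent.Results.MP_fa8a39_gt.NonsliceMutant
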